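import Pool.Agent.Y808.LB.Stm4

/-!
# The two-dimensional regular local ring `V[X,U]/(U X^a - π)` (task TT)
-/

set_option autoImplicit false

open Polynomial IsLocalRing

noncomputable section

namespace Pool.Agent.Y70.LB

open Pool.Agent.Y808.LB

section
variable {P : Type} [CommRing P] {r : ℕ} (𝔭 : Ideal P) [𝔭.IsPrime]

theorem core {B : Type} [CommRing B] [IsLocalRing B] (ev : P →+* B)
    (hev : ∀ f, f ∈ 𝔭 ↔ ev f ∈ maximalIdeal B) {F : P} (hF : F ∈ 𝔭) (hF0 : ev F = 0)
    (c : Fin r → P) (hgen : 𝔭 ≤ Ideal.span (Set.range c ∪ {F})) (hc : ∀ i, c i ∈ 𝔭)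
    (hht : ((r + 1 : ℕ) : ℕ∞) ≤ 𝔭.height)
    {S : Type} [CommRing S] [IsLocalRing S] [IsNoetherianRing S] [Algebra P S]
    [IsLocalization.AtPrime S 𝔭]
    {R : Type} [CommRing R] (mk : S →+* R) (hmk : Function.Surjective mk)
    (hker : RingHom.ker mk = Ideal.span {algebraMap P S F}) :
    ∃ (_ : IsRegularLocalRing R) (i : P →+* R) (φ : R →+* B),
      ringKrullDim R = (r : WithBot ℕ∞) ∧ IsLocalHom φ ∧
      maximalIdeal R = Ideal.span (Set.range (i ∘ c)) ∧ ∀ f, φ (i f) = ev f := by
  have hmS : 𝔭.map (algebraMap _ S) = maximalIdeal S :=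
    IsLocalization.AtPrime.map_eq_maximalIdeal 𝔭 S
  have hJ : RingHom.ker mk ≤ maximalIdeal S := by
    rw [hker, Ideal.span_singleton_le_iff_mem, ← hmS]
    exact Ideal.mem_map_of_mem _ hF
  have hmk0 : mk (algebraMap P S F) = 0 := by
    rw [← RingHom.mem_ker, hker]
    exact Ideal.mem_span_singleton_self _
  have : Nontrivial R := by
    refine ⟨⟨0, 1, fun h => ?_⟩⟩
    have h1 : (1 : S) ∈ RingHom.ker mk := by rw [RingHom.mem_ker, map_one, ← h]
    exact (Ideal.ne_top_iff_one _).1 (maximalIdeal.isMaximal S).ne_top (hJ h1)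
  have : IsLocalRing R := IsLocalRing.of_surjective' mk hmk
  have : IsNoetherianRing R := isNoetherianRing_of_surjective S R mk hmk
  have hmR : (maximalIdeal S).map mk = maximalIdeal R :=
    IsLocalRing.map_maximalIdeal_of_surjective mk hmk
  let i : P →+* R := mk.comp (algebraMap P S)
  have hmaxR : maximalIdeal R = Ideal.span (Set.range (i ∘ c)) := by
    apply le_antisymm
    · rw [← hmR, ← hmS, Ideal.map_map]
      refine (Ideal.map_mono hgen).trans ?_
      rw [Ideal.map_span, Ideal.span_le]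
      rintro _ ⟨f, (⟨l, rfl⟩ | hf), rfl⟩
      · exact Ideal.subset_span ⟨l, rfl⟩
      · rw [Set.mem_singleton_iff] at hf
        rw [hf]
        have : (mk.comp (algebraMap P S)) F = 0 := hmk0
        rw [this]
        exact zero_mem _
    · rw [Ideal.span_le]
      rintro _ ⟨l, rfl⟩
      rw [← hmR, ← hmS]
      exact Ideal.mem_map_of_mem _ (Ideal.mem_map_of_mem _ (hc l))
  have hrank : (maximalIdeal R).spanFinrank ≤ r := by
    rw [hmaxR]
    refine (Submodule.spanFinrank_span_le_ncard_of_finite (Set.finite_range (i ∘ c))).trans ?_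
    have := Finite.card_range_le (i ∘ c)
    rwa [Nat.card_fin, Nat.card_coe_set_eq] at this
  have hdim1 : ringKrullDim R ≤ r :=
    (ringKrullDim_le_spanFinrank_maximalIdeal R).trans (by exact_mod_cast hrank)
  have hdim2 : (r : WithBot ℕ∞) ≤ ringKrullDim R := by
    have h2 := Ideal.height_le_ringKrullDim_quotient_add_one (R := S) (p := maximalIdeal S)
      (r := algebraMap _ S F) (hJ (by
        rw [hker]; exact Ideal.mem_span_singleton_self _))
    rw [IsLocalRing.maximalIdeal_height_eq_ringKrullDim,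
      IsLocalization.AtPrime.ringKrullDim_eq_height 𝔭 S, ← hker,
      ringKrullDim_eq_of_ringEquiv (RingHom.quotientKerEquivOfSurjective hmk)] at h2
    have h3 : ((r : WithBot ℕ∞) + 1) ≤ ringKrullDim R + 1 := by
      refine le_trans ?_ h2
      have h4 : (((r + 1 : ℕ) : ℕ∞) : WithBot ℕ∞) ≤ (𝔭.height : WithBot ℕ∞) :=
        WithBot.coe_le_coe.2 hht
      refine le_trans (le_of_eq ?_) h4
      push_cast
      rfl
    have h4 : ringKrullDim R ≠ ⊥ := by
      intro h5
      have := ringKrullDim_nonneg_of_nontrivial (R := R)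
      rw [h5] at this
      exact absurd this (by simp)
    obtain ⟨d, hd⟩ := WithBot.ne_bot_iff_exists.1 h4
    rw [← hd] at h3 ⊢
    have h5 : ((r : ℕ∞) + 1) ≤ d + 1 := by
      exact_mod_cast h3
    have h6 : (r : ℕ∞) ≤ d := by
      rcases eq_or_ne d ⊤ with h7 | h7
      · rw [h7]; exact le_top
      · lift d to ℕ using h7
        have : r + 1 ≤ d + 1 := by exact_mod_cast h5
        exact_mod_cast Nat.le_of_succ_le_succ this
    exact_mod_cast h6
  have hdim : ringKrullDim R = (r : WithBot ℕ∞) := le_antisymm hdim1 hdim2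
  have hreg : IsRegularLocalRing R := by
    apply IsRegularLocalRing.of_spanFinrank_maximalIdeal_le
    rw [hdim]
    exact_mod_cast hrank
  -- the homomorphism to `B`
  have heu : ∀ g : 𝔭.primeCompl, IsUnit (ev g) := by
    intro g
    by_contra h4
    exact g.2 ((hev _).2 h4)
  let φS : S →+* B := IsLocalization.lift heu
  have hφS : ∀ f, φS (algebraMap _ S f) = ev f := fun f => IsLocalization.lift_eq heu f
  have hφ0 : ∀ s ∈ RingHom.ker mk, φS s = 0 := by
    intro s hs
    rw [hker, Ideal.mem_span_singleton'] at hs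
    obtain ⟨b, rfl⟩ := hs
    rw [map_mul, hφS, hF0, mul_zero]
  let φ : R →+* B := RingHom.liftOfSurjective mk hmk ⟨φS, hφ0⟩
  have hφ : ∀ s : S, φ (mk s) = φS s := fun s =>
    RingHom.liftOfRightInverse_comp_apply mk _ _ ⟨φS, hφ0⟩ s
  have hφi : ∀ f, φ (i f) = ev f := by
    intro f
    change φ (mk _) = _
    rw [hφ, hφS]
  refine ⟨hreg, i, φ, hdim, ⟨fun y hy => ?_⟩, hmaxR, hφi⟩
  by_contra h1
  have h2 : y ∈ maximalIdeal R := h1
  rw [hmaxR] at h2
  have h3 : Ideal.span (Set.range (i ∘ c)) ≤ (maximalIdeal B).comap φ := by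
    rw [Ideal.span_le]
    rintro _ ⟨l, rfl⟩
    change φ (i (c l)) ∈ maximalIdeal B
    rw [hφi, ← hev]
    exact hc l
  exact (h3 h2) hy

theorem core' [IsNoetherianRing P] {B : Type} [CommRing B] [IsLocalRing B] (ev : P →+* B)
    (hev : ∀ f, f ∈ 𝔭 ↔ ev f ∈ maximalIdeal B) {F : P} (hF : F ∈ 𝔭) (hF0 : ev F = 0)
    (c : Fin r → P) (hgen : 𝔭 ≤ Ideal.span (Set.range c ∪ {F})) (hc : ∀ i, c i ∈ 𝔭)
    (hht : ((r + 1 : ℕ) : ℕ∞) ≤ 𝔭.height) :
    ∃ (R : Type) (_ : CommRing R) (_ : IsRegularLocalRing R) (i : P →+* R) (φ : R →+* B),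
      ringKrullDim R = (r : WithBot ℕ∞) ∧ IsLocalHom φ ∧
      maximalIdeal R = Ideal.span (Set.range (i ∘ c)) ∧ ∀ f, φ (i f) = ev f := by
  have h2 : IsNoetherianRing (Localization.AtPrime 𝔭) :=
    IsLocalization.isNoetherianRing 𝔭.primeCompl _ inferInstance
  exact ⟨_, _, core 𝔭 ev hev hF hF0 c hgen hc hht (S := Localization.AtPrime 𝔭)
    (Ideal.Quotient.mk (Ideal.span {algebraMap P (Localization.AtPrime 𝔭) F}))
    Ideal.Quotient.mk_surjective (Ideal.mk_ker)⟩

end

section
variable {V κ L : Type} [CommRing V] [Field κ] [Field L] [Algebra κ L]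

/-- evaluation of the outer variable at zero -/
def p1 (V : Type) [CommRing V] : V[X][X] →+* V[X] := Polynomial.evalRingHom 0

/-- then reduction of the coefficients -/
def p2 (ρ : V →+* κ) : V[X][X] →+* κ[X] := (mapRingHom ρ).comp (p1 V)

/-- then evaluation of the inner variable -/
def p3 (ρ : V →+* κ) (t : L) : V[X][X] →+* L :=
  ((aeval t : κ[X] →ₐ[κ] L) : κ[X] →+* L).comp (p2 ρ)

theorem p2_apply (ρ : V →+* κ) (f : V[X][X]) : p2 ρ f = (f.eval 0).map ρ := rfl

theorem p3_apply (ρ : V →+* κ) (t : L) (f : V[X][X]) :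
    p3 ρ t f = aeval t ((f.eval 0).map ρ) := rfl

theorem height_le [IsDomain V] (ρ : V →+* κ) {π : V} (hπ0 : π ≠ 0) (hπ : ρ π = 0) (t : L)
    {G : V[X]} (hG : G.map ρ ≠ 0) (hGt : aeval t (G.map ρ) = 0) :
    ((2 + 1 : ℕ) : ℕ∞) ≤ (RingHom.ker (p3 ρ t)).height := by
  have i1 : (RingHom.ker (p1 V)).IsPrime := RingHom.ker_isPrime _
  have i2 : (RingHom.ker (p2 ρ)).IsPrime := RingHom.ker_isPrime _
  have i3 : (RingHom.ker (p3 ρ t)).IsPrime := RingHom.ker_isPrime _
  have l1 : (⊥ : Ideal V[X][X]) < RingHom.ker (p1 V) := by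
    refine bot_lt_iff_ne_bot.2 fun h => ?_
    have h1 : (X : V[X][X]) ∈ RingHom.ker (p1 V) := by
      rw [RingHom.mem_ker, p1, coe_evalRingHom, eval_X]
    rw [h, Ideal.mem_bot] at h1
    exact X_ne_zero h1
  have l2 : RingHom.ker (p1 V) < RingHom.ker (p2 ρ) := by
    refine lt_of_le_of_ne (fun f hf => ?_) fun h => ?_
    · rw [RingHom.mem_ker] at hf ⊢
      rw [p2, RingHom.comp_apply, hf, map_zero]
    · have h1 : (C (C π) : V[X][X]) ∈ RingHom.ker (p2 ρ) := by
        rw [RingHom.mem_ker, p2_apply, eval_C, map_C, hπ, map_zero]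
      rw [← h, RingHom.mem_ker, p1, coe_evalRingHom, eval_C, C_eq_zero] at h1
      exact hπ0 h1
  have l3 : RingHom.ker (p2 ρ) < RingHom.ker (p3 ρ t) := by
    refine lt_of_le_of_ne (fun f hf => ?_) fun h => ?_
    · rw [RingHom.mem_ker] at hf ⊢
      rw [p3, RingHom.comp_apply, hf, map_zero]
    · have h1 : (C G : V[X][X]) ∈ RingHom.ker (p3 ρ t) := by
        rw [RingHom.mem_ker, p3_apply, eval_C, hGt]
      rw [← h, RingHom.mem_ker, p2_apply, eval_C] at h1
      exact hG h1
  have h1 := Ideal.height_add_one_le_of_lt_of_isPrime l1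
  have h2 := Ideal.height_add_one_le_of_lt_of_isPrime l2
  have h3 := Ideal.height_add_one_le_of_lt_of_isPrime l3
  have h4 : (1 : ℕ∞) ≤ (RingHom.ker (p1 V)).height := le_trans (le_add_left le_rfl) h1
  have h5 : (1 : ℕ∞) + 1 ≤ (RingHom.ker (p2 ρ)).height := (add_le_add_left h4 1).trans h2
  have h6 : (1 : ℕ∞) + 1 + 1 ≤ (RingHom.ker (p3 ρ t)).height := (add_le_add_left h5 1).trans h3
  refine le_trans (le_of_eq ?_) h6
  norm_num

theorem le_span (ρ : V →+* κ) (hρ : Function.Surjective ρ) {π : V}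
    (hker : RingHom.ker ρ = Ideal.span {π}) (t : L) {G : V[X]}
    (hG : G.map ρ = minpoly κ t) {a : ℕ} (ha : a ≠ 0) :
    RingHom.ker (p3 ρ t) ≤
      Ideal.span (Set.range ![(X : V[X][X]), C G] ∪ {C X * X ^ a - C (C π)}) := by
  have hX : (X : V[X][X]) ∈
      Ideal.span (Set.range ![(X : V[X][X]), C G] ∪ {C X * X ^ a - C (C π)}) :=
    Ideal.subset_span (Or.inl ⟨0, rfl⟩)
  have hCG : (C G : V[X][X]) ∈
      Ideal.span (Set.range ![(X : V[X][X]), C G] ∪ {C X * X ^ a - C (C π)}) :=
    Ideal.subset_span (Or.inl ⟨1, rfl⟩)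
  have hπ : (C (C π) : V[X][X]) ∈
      Ideal.span (Set.range ![(X : V[X][X]), C G] ∪ {C X * X ^ a - C (C π)}) := by
    have h1 : (C X * X ^ a - C (C π) : V[X][X]) ∈
      Ideal.span (Set.range ![(X : V[X][X]), C G] ∪ {C X * X ^ a - C (C π)}) :=
      Ideal.subset_span (Or.inr rfl)
    have h2 : (C X * X ^ a : V[X][X]) ∈
      Ideal.span (Set.range ![(X : V[X][X]), C G] ∪ {C X * X ^ a - C (C π)}) :=
      Ideal.mul_mem_left _ _ (Ideal.pow_mem_of_mem _ hX _ (Nat.pos_of_ne_zero ha))
    have h3 := Ideal.sub_mem _ h2 h1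
    rwa [sub_sub_cancel] at h3
  intro f hf
  rw [RingHom.mem_ker, p3_apply] at hf
  obtain ⟨q, hq⟩ := minpoly.dvd κ t hf
  obtain ⟨q', rfl⟩ := Polynomial.map_surjective ρ hρ q
  have h1 : f.eval 0 - G * q' ∈ RingHom.ker (mapRingHom ρ) := by
    rw [RingHom.mem_ker, coe_mapRingHom, Polynomial.map_sub, Polynomial.map_mul, hG, hq, sub_self]
  rw [Polynomial.ker_mapRingHom, hker, Ideal.map_span, Set.image_singleton,
    Ideal.mem_span_singleton'] at h1
  obtain ⟨b, hb⟩ := h1
  have h2 : f = (f - C (f.coeff 0)) + (C b * C (C π) + C q' * C G) := by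
    have h3 : f.coeff 0 = b * C π + q' * G := by
      rw [hb, coeff_zero_eq_eval_zero]
      ring
    rw [← C_mul, ← C_mul, ← C_add, ← h3]
    ring
  rw [h2]
  refine Ideal.add_mem _ ?_ (Ideal.add_mem _ (Ideal.mul_mem_left _ _ hπ)
    (Ideal.mul_mem_left _ _ hCG))
  obtain ⟨d, hd⟩ := X_dvd_sub_C (p := f)
  rw [hd]
  exact Ideal.mul_mem_right _ _ hX

end

/-- Nakayama -/
theorem nak {B : Type} [CommRing B] [IsLocalRing B] (S : Set B) (hS : S.Finite) (J : Ideal B)
    (hm : maximalIdeal B = Ideal.span S) (hJ : J ≤ maximalIdeal B)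
    (h : ∀ x ∈ S, ∃ y ∈ J, y - x ∈ maximalIdeal B * maximalIdeal B) : J = maximalIdeal B := by
  apply le_antisymm hJ
  apply Submodule.le_of_le_smul_of_le_jacobson_bot (I := maximalIdeal B)
  · rw [hm]
    exact Submodule.fg_span hS
  · rw [IsLocalRing.jacobson_eq_maximalIdeal _ bot_ne_top]
  · rw [smul_eq_mul]
    conv_lhs => rw [hm]
    rw [Ideal.span_le]
    intro x hx
    obtain ⟨y, hy, hyx⟩ := h x hx
    have : x = y - (y - x) := by ring
    rw [this]
    exact Submodule.sub_mem _ (Submodule.mem_sup_left hy) (Submodule.mem_sup_right hyx)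

/-- new parameters, so that `G(u)` is one of them -/
theorem newpar {V B : Type} [CommRing V] [CommRing B] [IsLocalRing B] [Algebra V B] (G : V[X])
    {s : ℕ} {x : B} {y : Fin (s + 1) → B} (u : Bˣ) (a : ℕ)
    (hm : maximalIdeal B = Ideal.span ({x} ∪ Set.range y)) (ha : IsUnit (a : B))
    (h1 : aeval (u : B) G ∈ maximalIdeal B) (h2 : IsUnit (aeval (u : B) (derivative G))) :
    ∃ u' x' : B, u' * x' ^ a = u * x ^ a ∧ u' - u ∈ maximalIdeal B ∧ x' ∈ maximalIdeal B ∧
      maximalIdeal B = Ideal.span (({x', aeval u' G} : Set B) ∪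
        Set.range fun i : Fin s => y i.succ) := by
  have hx : x ∈ maximalIdeal B := by
    rw [hm]
    exact Ideal.subset_span (Or.inl rfl)
  have hy : ∀ i, y i ∈ maximalIdeal B := by
    intro i
    rw [hm]
    exact Ideal.subset_span (Or.inr ⟨i, rfl⟩)
  obtain ⟨d, hd⟩ : IsUnit (aeval (u : B) (derivative G) * u * a) := (h2.mul u.isUnit).mul ha
  obtain ⟨l, hl⟩ : ∃ l : B, l = (y 0 - aeval (u : B) G) * (d⁻¹ : Bˣ) := ⟨_, rfl⟩
  have hlm : l ∈ maximalIdeal B := by
    rw [hl]
    exact Ideal.mul_mem_right _ _ (Ideal.sub_mem _ (hy 0) h1)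
  have hdl : (d : B) * l = y 0 - aeval (u : B) G := by
    rw [hl, mul_comm, mul_assoc, Units.inv_mul, mul_one]
  obtain ⟨e, he⟩ : IsUnit (1 + l) := by
    by_contra h
    have h3 : 1 + l ∈ maximalIdeal B := h
    have h4 := Ideal.sub_mem _ h3 hlm
    rw [add_sub_cancel_right] at h4
    exact (Ideal.ne_top_iff_one _).1 (maximalIdeal.isMaximal B).ne_top h4
  obtain ⟨k, hk⟩ := Polynomial.powAddExpansion (1 : B) l a
  have hdelta : (u : B) * (e : B) ^ a = u + u * (a * l + k * l ^ 2) := by
    rw [he, hk]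
    ring
  have hdm : (u : B) * (a * l + k * l ^ 2) ∈ maximalIdeal B := by
    have : (u : B) * (a * l + k * l ^ 2) = (u * (a + k * l)) * l := by ring
    rw [this]
    exact Ideal.mul_mem_left _ _ hlm
  have hu : (u : B) * (e : B) ^ a - u ∈ maximalIdeal B := by
    rw [hdelta, add_sub_cancel_left]
    exact hdm
  have hx' : ((e⁻¹ : Bˣ) : B) * x ∈ maximalIdeal B := Ideal.mul_mem_left _ _ hx
  have hG : aeval ((u : B) * (e : B) ^ a) G - y 0 ∈ maximalIdeal B * maximalIdeal B := by
    obtain ⟨k', hk'⟩ := Polynomial.binomExpansion (G.map (algebraMap V B)) (u : B)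
      (u * (a * l + k * l ^ 2))
    rw [hdelta, ← Polynomial.eval_map_algebraMap, hk', Polynomial.eval_map_algebraMap,
      Polynomial.derivative_map, Polynomial.eval_map_algebraMap]
    have h3 : aeval (u : B) G + aeval (u : B) (derivative G) * (u * (a * l + k * l ^ 2)) +
        k' * (u * (a * l + k * l ^ 2)) ^ 2 - y 0 =
        (aeval (u : B) G + (aeval (u : B) (derivative G) * u * a) * l - y 0) +
        (aeval (u : B) (derivative G) * u * k) * (l * l) +
        k' * ((u * (a * l + k * l ^ 2)) * (u * (a * l + k * l ^ 2))) := by ring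
    have h4 : aeval (u : B) G + (aeval (u : B) (derivative G) * u * a) * l - y 0 = 0 := by
      rw [← hd, hdl]
      ring
    rw [h3, h4, zero_add]
    exact Ideal.add_mem _ (Ideal.mul_mem_left _ _ (Ideal.mul_mem_mul hlm hlm))
      (Ideal.mul_mem_left _ _ (Ideal.mul_mem_mul hdm hdm))
  refine ⟨u * (e : B) ^ a, (e⁻¹ : Bˣ) * x, ?_, hu, hx', ?_⟩
  · have h3 : (u : B) * (e : B) ^ a * (((e⁻¹ : Bˣ) : B) * x) ^ a =
        u * ((e : B) * ((e⁻¹ : Bˣ) : B)) ^ a * x ^ a := by ring
    rw [h3, Units.mul_inv, one_pow, mul_one]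
  · refine (nak ({x} ∪ Set.range y) ((Set.finite_singleton x).union (Set.finite_range y)) _
      hm ?_ ?_).symm
    · rw [Ideal.span_le]
      rintro z ((rfl | hz) | ⟨i, rfl⟩)
      · exact hx'
      · rw [Set.mem_singleton_iff] at hz
        rw [hz]
        have h3 := Ideal.mul_le_right hG
        have h4 := Ideal.add_mem _ h3 (hy 0)
        rwa [sub_add_cancel] at h4
      · exact hy _
    · rintro z (hz | ⟨i, rfl⟩)
      · rw [Set.mem_singleton_iff] at hz
        refine ⟨z, ?_, by rw [sub_self]; exact zero_mem _⟩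
        have h3 : z = e * ((e⁻¹ : Bˣ) * x) := by
          rw [hz, ← mul_assoc, Units.mul_inv, one_mul]
        rw [h3]
        exact Ideal.mul_mem_left _ _ (Ideal.subset_span (Or.inl (Or.inl rfl)))
      · refine Fin.cases ?_ (fun j => ?_) i
        · exact ⟨_, Ideal.subset_span (Or.inl (Or.inr rfl)), hG⟩
        · refine ⟨y j.succ, Ideal.subset_span (Or.inr ⟨j, rfl⟩), ?_⟩
          rw [sub_self]
          exact zero_mem _

theorem t_TT : S_TT := by
  intro V B _ _ _ π _ _ _ _ hπ hsep s x y u a hm ha hπu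
  have hπ' : Prime π := hπ.prime
  have hmax : maximalIdeal V = Ideal.span {π} :=
    (IsDiscreteValuationRing.irreducible_iff_uniformizer π).1 hπ
  have hres : ∀ (H : V[X]) (z : B),
      residue B (aeval z H) = aeval (residue B z) (H.map (residue V)) := by
    intro H z
    rw [aeval_def, Polynomial.hom_eval₂, aeval_def, Polynomial.eval₂_map]
    rfl
  obtain ⟨G, hG⟩ := Polynomial.map_surjective (residue V) residue_surjective
    (minpoly (ResidueField V) (residue B u))
  have hint : IsIntegral (ResidueField V) (residue B (u : B)) :=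
    Algebra.IsIntegral.isIntegral _
  have hsepu : (minpoly (ResidueField V) (residue B (u : B))).Separable :=
    Algebra.IsSeparable.isSeparable _ _
  have h1 : aeval (u : B) G ∈ maximalIdeal B := by
    rw [← IsLocalRing.residue_eq_zero_iff, hres, hG, minpoly.aeval]
  have h2 : IsUnit (aeval (u : B) (derivative G)) := by
    rw [← IsLocalRing.residue_ne_zero_iff_isUnit, hres, ← Polynomial.derivative_map, hG]
    exact hsepu.aeval_derivative_ne_zero (minpoly.aeval _ _)
  have haB : IsUnit (a : B) := by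
    rw [← IsLocalRing.residue_ne_zero_iff_isUnit]
    have h3 : residue B (a : B) = algebraMap (ResidueField V) (ResidueField B) a := by
      rw [map_natCast, map_natCast]
    rw [h3]
    exact fun h => ha ((map_eq_zero _).1 h)
  have ha0 : a ≠ 0 := by
    rintro rfl
    exact ha Nat.cast_zero
  obtain ⟨u', x', hux, hu', hx', hm'⟩ := newpar G u a hm haB h1 h2
  let ev : V[X][X] →+* B := eval₂RingHom ((aeval u' : V[X] →ₐ[V] B) : V[X] →+* B) x'
  have hevC : ∀ f : V[X], ev (C f) = aeval u' f := fun f => eval₂_C _ _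
  have hevX : ev X = x' := eval₂_X _ _
  have hut : residue B u' = residue B u := by
    rw [← sub_eq_zero, ← map_sub, IsLocalRing.residue_eq_zero_iff]
    exact hu'
  have hcomp : (residue B).comp ev = p3 (residue V) (residue B (u : B)) := by
    refine Polynomial.ringHom_ext (fun f => ?_) ?_
    · rw [RingHom.comp_apply, hevC, hres, p3_apply, eval_C, hut]
    · rw [RingHom.comp_apply, hevX, p3_apply, eval_X, Polynomial.map_zero, map_zero,
        IsLocalRing.residue_eq_zero_iff]
      exact hx'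
  have hev : ∀ f, f ∈ RingHom.ker (p3 (residue V) (residue B (u : B))) ↔
      ev f ∈ maximalIdeal B := by
    intro f
    rw [RingHom.mem_ker, ← hcomp, RingHom.comp_apply, IsLocalRing.residue_eq_zero_iff]
  have hevF : ev (C X * X ^ a - C (C π)) = 0 := by
    rw [map_sub, map_mul, map_pow, hevC, hevC, hevX, aeval_X, aeval_C, hux, hπu, sub_self]
  have i3 : (RingHom.ker (p3 (residue V) (residue B (u : B)))).IsPrime := RingHom.ker_isPrime _
  have hev0 : ev (C G) = aeval u' G := hevC G
  have hGm : aeval u' G ∈ maximalIdeal B := by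
    rw [hm']
    exact Ideal.subset_span (Or.inl (Or.inr rfl))
  obtain ⟨R, iR, iReg, i, φ, hdim, hloc, hmR, hφ⟩ := core' _ ev hev
    ((hev _).2 (by rw [hevF]; exact zero_mem _)) hevF ![(X : V[X][X]), C G]
    (le_span (residue V) residue_surjective (by rw [IsLocalRing.ker_residue, hmax])
      (residue B (u : B)) hG ha0)
    (by
      intro l
      rw [hev]
      fin_cases l
      · change ev X ∈ _
        rw [hevX]
        exact hx'
      · change ev (C G) ∈ _
        rw [hev0]
        exact hGm)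
    (height_le (residue V) hπ'.ne_zero (by
      rw [IsLocalRing.residue_eq_zero_iff, hmax]
      exact Ideal.mem_span_singleton_self π) _ (by
      rw [hG]
      exact minpoly.ne_zero hint) (by rw [hG, minpoly.aeval]))
  let iV : Algebra V R := (i.comp ((C : V[X] →+* V[X][X]).comp (C : V →+* V[X]))).toAlgebra
  let iB : Algebra R B := φ.toAlgebra
  have hst : IsScalarTower V R B := by
    refine IsScalarTower.of_algebraMap_eq fun v => ?_
    change _ = φ (i (C (C v)))
    rw [hφ, hevC, aeval_C]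
  have hloc' : IsLocalHom (algebraMap R B) := hloc
  have hlV : IsLocalHom (algebraMap V R) := by
    have h3 : IsLocalHom ((algebraMap R B).comp (algebraMap V R)) := by
      rw [← IsScalarTower.algebraMap_eq]
      infer_instance
    exact isLocalHom_of_comp (algebraMap V R) (algebraMap R B)
  refine ⟨R, iR, iReg, iV, iB, hst, hloc', i ∘ ![(X : V[X][X]), C G], hdim, hmR, ?_, ?_⟩
  · have h3 : (algebraMap R B) ∘ (i ∘ ![(X : V[X][X]), C G]) = ![x', aeval u' G] := by
      funext l
      fin_cases l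
      · change φ (i X) = x'
        rw [hφ, hevX]
      · change φ (i (C G)) = aeval u' G
        rw [hφ, hev0]
    rw [h3, Matrix.range_cons, Matrix.range_cons, Matrix.range_empty, Set.union_empty,
      ← Set.insert_eq]
    exact hm'
  · exact Algebra.isSeparable_tower_top_of_isSeparable (ResidueField V) _ _

end Pool.Agent.Y70.LB
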